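import Pool.Agent.Q284.E8.Ass

/-!
# The adjoint `L`-functions of `E_8` do not bound the Ramanujan exponents

`K = F(T)`, `F` ANY finite field, `q = |F|`.  Let `δ > 0`.  For EVERY function `θ` from the finite places of `K` to
`[0, 1/4 - δ]` there are unramified classes `c_P` in `E_8(ℂ)` at all finite places `P` (`e_8 = sl_9 ⊕ Λ³ ⊕ Λ³*`,
`c_P` the image of `diag (β_P)`, hermitian, all roots of absolute value `< |P|`, so the class of a generic unitary
representation: a complementary series) such that the largest absolute value of an eigenvalue of `Ad c_P` is exactly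
`|P|^θ(P)`, and for EVERY idele class character `χ` of `K` (up to unramified twists `|·|^s`: the primitive Hayes
characters of any level), with whatever ramification, the twisted adjoint `L`-function `L(s, Π ⊗ χ, Ad)` of degree
`248` is a polynomial in `q^(-s)` of the prescribed degree with functional equation with the prescribed root number,
and ALL its zeros are on the line `Re s = 1/2`.

The local parameters: `β = (u α_1, ..., u α_8, u^(-8))`, `u = |P|^(θ/9)`, `∏ (1 - α_j z) = 1 - t z - t z^7 + z^8`; the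
trace of `Ad c` is `t² + (u^9 + u^(-9)) t`, and the traces of `Ad c²`, `Ad c³` are `O(t u^9)`.

The degrees: every `D χ ≥ ν (deg Q + max M (l + 1) - 2)`, `ν ≥ 9`, `M ≥ M₀(δ)`, is allowed; with `ν = 248` this is
the degree for a ramified `Π_∞` with Swan conductor `248 (M - 2)` or so.

Engine: project GE (see `Pool/Agent/Q284/GE/All.lean` for the authors of the lemmas); this file: helper284.
-/

set_option autoImplicit false

open Finset Polynomial ComplexConjugate

namespace Pool.Agent.Results.MP_eadad4_nt.AdjointMethodE8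

open Pool.Agent.Q284.PS (Prim Nice)
open Pool.Agent.Q284.GE (RiemannHypothesis)
open Pool.Agent.Q284.E8 (Exponents adFactor)

theorem result : ∀ δ : ℝ, 0 < δ → ∃ M₀ : ℕ, 3 ≤ M₀ ∧ ∀ (F : Type) [Field F] [Fintype F]
    (θ : F[X] → ℝ), (∀ P, 0 ≤ θ P ∧ θ P ≤ 1 / 4 - δ) → ∀ ν M : ℕ, 9 ≤ ν → M₀ ≤ M →
    ∀ (D : F[X] → ℕ → (F[X] → ℂ) → ℕ) (ε : (F[X] → ℂ) → ℂ),
    -- degrees and root numbers
    (∀ (Q : F[X]) (l : ℕ) (χ : F[X] → ℂ), Prim Q l χ →
      ν * (Q.natDegree + max M (l + 1) - 2) ≤ D Q l χ ∧ D Q l (fun f => conj (χ f)) = D Q l χ) →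
    (∀ χ, ‖ε χ‖ = 1) → (∀ χ, ε (fun f => conj (χ f)) = conj (ε χ)) →
    ∃ β : F[X] → Fin 9 → ℂ, Exponents θ β ∧
      ∀ (Q : F[X]) (l : ℕ) (χ : F[X] → ℂ), Prim Q l χ → ∃ L : ℂ → ℂ,
        Nice (Fintype.card F) (D Q l χ) (ε χ) L ∧ RiemannHypothesis L ∧
        ∀ s : ℂ, 1 - 9 / 10 * (1 / 2 - 4 / (ν : ℝ)) < s.re → 3 / 4 - δ < s.re →
          HasProd (adFactor β χ s) (L s) := by
  intro δ hδ
  obtain ⟨M₀, hM₀, h⟩ := Pool.Agent.Q284.E8.e8Stm δ hδ
  refine ⟨M₀, hM₀, ?_⟩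
  intro F _ _ θ hθ ν M hν hM D ε hD hε hεc
  obtain ⟨β, h1, h3⟩ := h F θ hθ ν M hν hM (Pool.Agent.Q284.GE.lev D) ε (by
    intro Q l χ hχ
    rw [Pool.Agent.Q284.GE.lev_eq _ hχ, Pool.Agent.Q284.GE.lev_eq _ (Pool.Agent.Q284.GE.prim_conj hχ)]
    exact hD Q l χ hχ) hε hεc
  refine ⟨β, h1, ?_⟩
  intro Q l χ hχ
  obtain ⟨L, h6, h7, h8⟩ := h3 Q l χ hχ
  rw [Pool.Agent.Q284.GE.lev_eq _ hχ] at h6
  exact ⟨L, h6, h7, h8⟩

end Pool.Agent.Results.MP_eadad4_nt.AdjointMethodE8
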