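import Pool.Agent.Q135.NS.Growth

/-!
# Nodal domains of cusp forms which violate the Ramanujan bound have non-amenable stabilisers

`G` is a group with subgroups `K` and `Γ`.  Over a global function field `k` take for example `G = 𝐆(k_v)`,
`K = 𝐆(𝒪_v)` and an arithmetic group `Γ`, or `G = 𝐆(𝔸_k)`, `K` compact open and `Γ = 𝐆(k)`, with `𝐆` semisimple.
`φ` is a nonnegative symmetric Hecke function and `F` is a real form on `Γ \ G / K` with finite support (all cusp forms
have finite support) which is an eigenfunction of the Hecke operator of `φ` with eigenvalue `L`.  `N` is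
an upper bound for the spectrum of the Hecke operator on `ℓ²(G / K)`.  Tempered forms satisfy `L ≤ N`.  We study
the forms with `L > N`.
-/

set_option autoImplicit false

namespace Pool.Agent.Results.MP_eadad4_nt.AmenableNodalStabilisers

open Pool.Agent.Q135.NS

variable {G : Type*} [Group G]

/-- `φ` is a nonnegative, symmetric, `K`-bi-invariant function, supported on finitely many cosets `gK`. -/
structure HeckeFunction (K : Subgroup G) (φ : G → ℝ) : Prop where
  nonneg : ∀ g, 0 ≤ φ g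
  symm : ∀ g, φ g⁻¹ = φ g
  biinvariant : ∀ k ∈ K, ∀ k' ∈ K, ∀ g, φ (k * g * k') = φ g
  finite : {x : G ⧸ K | φ x.out ≠ 0}.Finite

/-- `F` is a function on `Γ \ G / K` with finite support. -/
structure FiniteForm (Γ K : Subgroup G) (F : G → ℝ) : Prop where
  invariant : ∀ γ ∈ Γ, ∀ k ∈ K, ∀ g, F (γ * g * k) = F g
  support : ∃ S : Finset G, ∀ g, F g ≠ 0 → ∃ γ ∈ Γ, ∃ s ∈ S, ∃ k ∈ K, g = γ * s * k

/-- The Hecke operator of `φ` on right `K`-invariant functions: the sum over the cosets `yK` of `φ(g⁻¹ y) F(y)`. -/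
noncomputable def hecke (K : Subgroup G) (φ F : G → ℝ) (g : G) : ℝ :=
  ∑ᶠ y : G ⧸ K, φ (g⁻¹ * y.out) * F y.out

/-- The quadratic form of the Hecke operator on `ℓ²(G / K)` is at most `N` times the square of the norm. -/
def SpectrumLe (K : Subgroup G) (φ : G → ℝ) (N : ℝ) : Prop :=
  ∀ (S : Finset (G ⧸ K)) (f : G ⧸ K → ℝ),
    ∑ x ∈ S, ∑ y ∈ S, φ (x.out⁻¹ * y.out) * f x * f y ≤ N * ∑ x ∈ S, f x ^ 2

/-- Neighbours in the same nodal domain: same sign of `F`, and joined by the Hecke operator. -/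
def Step (K : Subgroup G) (φ F : G → ℝ) (x y : G ⧸ K) : Prop :=
  0 < F x.out * F y.out ∧ 0 < φ (x.out⁻¹ * y.out)

/-- The nodal domain of `F` through `x`. -/
def nodalDomain (K : Subgroup G) (φ F : G → ℝ) (x : G ⧸ K) : Set (G ⧸ K) :=
  {y | Relation.ReflTransGen (Step K φ F) x y}

/-- The ball of radius `n` around `x` in the nodal domain, for the graph distance in the nodal domain. -/
def domainBall (K : Subgroup G) (φ F : G → ℝ) (x : G ⧸ K) : ℕ → Set (G ⧸ K)
  | 0 => {x}
  | n + 1 => domainBall K φ F x n ∪ {y | ∃ z ∈ domainBall K φ F x n, Step K φ F z y}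

/-- The stabiliser in `Γ` of a subset `D` of `G / K`. -/
def stabiliser (Γ : Subgroup G) {K : Subgroup G} (D : Set (G ⧸ K)) : Subgroup G where
  carrier := {γ | γ ∈ Γ ∧ ∀ z : G ⧸ K, γ • z ∈ D ↔ z ∈ D}
  mul_mem' := by
    rintro a b ⟨ha, ha'⟩ ⟨hb, hb'⟩
    exact ⟨Γ.mul_mem ha hb, fun z => by rw [mul_smul, ha', hb']⟩
  one_mem' := ⟨Γ.one_mem, fun z => by rw [one_smul]⟩
  inv_mem' := by
    rintro a ⟨ha, ha'⟩
    exact ⟨Γ.inv_mem ha, fun z => by rw [← ha', smul_inv_smul]⟩

open Classical in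
/-- Amenability (the Følner condition): for all finite sets `T` and `ε > 0` there is a nonempty finite set `E` with
`|E t \ E| ≤ ε |E|` for all `t ∈ T`. -/
def Amenable (H : Type*) [Group H] : Prop :=
  ∀ (T : Finset H) (ε : ℝ), 0 < ε → ∃ E : Finset H, E.Nonempty ∧
    ∀ t ∈ T, (((E.image (fun e => e * t)) \ E).card : ℝ) ≤ ε * E.card

open Classical in
/-- A linear isoperimetric inequality: a finite set `T` and `c > 0` with `c |E| ≤ ∑_{t ∈ T} |E t \ E|` for all
finite sets `E`. -/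
def Isoperimetric (H : Type*) [Group H] : Prop :=
  ∃ (T : Finset H) (c : ℝ), 0 < c ∧
    ∀ E : Finset H, c * E.card ≤ ∑ t ∈ T, (((E.image (fun e => e * t)) \ E).card : ℝ)

/-! ### The kernel on `G / K` -/

section

variable {K Γ : Subgroup G} {φ F : G → ℝ} {L N : ℝ}

/-- the kernel -/
noncomputable def ker (K : Subgroup G) (φ : G → ℝ) (x y : G ⧸ K) : ℝ := φ (x.out⁻¹ * y.out)

lemma out_smul (γ : G) (x : G ⧸ K) : ∃ k ∈ K, (γ • x).out = γ * x.out * k := by
  have h : ((γ • x).out : G ⧸ K) = ((γ * x.out : G) : G ⧸ K) := by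
    rw [QuotientGroup.out_eq']
    conv_lhs => rw [← QuotientGroup.out_eq' x]
    rfl
  have h2 := QuotientGroup.eq.1 h.symm
  exact ⟨(γ * x.out)⁻¹ * (γ • x).out, h2, by group⟩

lemma ker_inv (hφ : HeckeFunction K φ) (γ : G) (x y : G ⧸ K) :
    ker K φ (γ • x) (γ • y) = ker K φ x y := by
  obtain ⟨k, hk, e1⟩ := out_smul γ x
  obtain ⟨k', hk', e2⟩ := out_smul γ y
  rw [ker, e1, e2, ker]
  have : (γ * x.out * k)⁻¹ * (γ * y.out * k') = k⁻¹ * (x.out⁻¹ * y.out) * k' := by group
  rw [this, hφ.biinvariant _ (K.inv_mem hk) _ hk']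

lemma form_out (hF : FiniteForm Γ K F) (γ : G) (hγ : γ ∈ Γ) (x : G ⧸ K) :
    F (γ • x).out = F x.out := by
  obtain ⟨k, hk, e1⟩ := out_smul γ x
  rw [e1, hF.invariant γ hγ k hk]

lemma isKer (hφ : HeckeFunction K φ)
    (hΓ : ∀ g : G, {γ : G | γ ∈ Γ ∧ g⁻¹ * γ * g ∈ K}.Finite) : Ker Γ (ker K φ) where
  nonneg := fun x y => hφ.nonneg _
  symm := fun x y => by
    rw [ker, ker, ← hφ.symm]
    congr 1
    group
  fin := fun x => by
    refine Set.Finite.of_injOn (f := fun y : G ⧸ K => x.out⁻¹ • y) ?_ ?_ hφ.finite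
    · intro y hy
      have h1 : ker K φ x y ≠ 0 := hy
      change φ (x.out⁻¹ • y).out ≠ 0
      obtain ⟨k, hk, e1⟩ := out_smul x.out⁻¹ y
      rw [e1]
      have := hφ.biinvariant 1 K.one_mem k hk (x.out⁻¹ * y.out)
      rw [one_mul] at this
      rw [this]
      exact h1
    · intro a _ b _ h
      exact smul_left_cancel _ h
  inv := fun γ x y => ker_inv hφ γ.1 x y
  stab := fun x => by
    refine Set.Finite.of_injOn (f := fun γ : Γ => γ.1) ?_ ?_ (hΓ x.out)
    · intro γ hγ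
      have h1 : γ.1 • x = x := hγ
      refine ⟨γ.2, ?_⟩
      have h2 : ((γ.1 * x.out : G) : G ⧸ K) = ((x.out : G) : G ⧸ K) := by
        have h3 : ((γ.1 * x.out : G) : G ⧸ K) = γ.1 • ((x.out : G) : G ⧸ K) := rfl
        rw [h3, QuotientGroup.out_eq', h1]
      have h3 := QuotientGroup.eq.1 h2.symm
      have : x.out⁻¹ * γ.1 * x.out = x.out⁻¹ * (γ.1 * x.out) := by group
      change x.out⁻¹ * γ.1 * x.out ∈ K
      rw [this]
      exact h3
    · intro a _ b _ h
      exact Subtype.ext h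

lemma isEig (hF : FiniteForm Γ K F) (hL : ∀ g, hecke K φ F g = L * F g) :
    Eig Γ (ker K φ) (fun x : G ⧸ K => F x.out) L where
  inv := fun γ x => form_out hF γ.1 γ.2 x
  supp := by
    classical
    obtain ⟨S, hS⟩ := hF.support
    refine ⟨S.image (fun s : G => (QuotientGroup.mk s : G ⧸ K)), fun x hx => ?_⟩
    obtain ⟨γ, hγ, s, hs, k, hk, e⟩ := hS x.out hx
    refine ⟨⟨γ⁻¹, Γ.inv_mem hγ⟩, Finset.mem_image.2 ⟨s, hs, ?_⟩⟩
    change (s : G ⧸ K) = γ⁻¹ • x
    rw [← QuotientGroup.out_eq' x, e]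
    change (s : G ⧸ K) = ((γ⁻¹ * (γ * s * k) : G) : G ⧸ K)
    rw [QuotientGroup.eq]
    have : s⁻¹ * (γ⁻¹ * (γ * s * k)) = k := by group
    rw [this]; exact hk
  eig := fun x => hL x.out

/-- the sign change -/
lemma isEig_neg (hF : FiniteForm Γ K F) (hL : ∀ g, hecke K φ F g = L * F g) :
    Eig Γ (ker K φ) (fun x : G ⧸ K => -F x.out) L where
  inv := fun γ x => by rw [(isEig hF hL).inv γ x]
  supp := by
    obtain ⟨S, hS⟩ := (isEig hF hL).supp
    exact ⟨S, fun x hx => hS x (fun h => hx (by rw [h, neg_zero]))⟩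
  eig := fun x => by
    have h := (isEig hF hL).eig x
    rw [mul_neg, ← h, ← finsum_neg_distrib]
    refine finsum_congr fun y => ?_
    ring

/-- the two notions of nodal domains agree -/
lemma nod_eq_nodalDomain {u : G ⧸ K → ℝ} (hu : ∀ x y, u x * u y = F x.out * F y.out) {x : G ⧸ K}
    (hx : 0 < u x) : nodalDomain K φ F x = nod (ker K φ) u x := by
  ext y
  constructor
  · intro h
    have h' : Relation.ReflTransGen (Step K φ F) x y := h
    clear h
    induction h' with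
    | refl => exact self_mem x
    | tail _ h2 ih =>
      have hp := pos_of_mem hx ih
      have h3 := h2.1
      rw [← hu] at h3
      exact Relation.ReflTransGen.tail ih ⟨hp, (pos_iff_pos_of_mul_pos h3).1 hp, h2.2⟩
  · intro h
    have h' : Relation.ReflTransGen (Adj (ker K φ) u) x y := h
    clear h
    induction h' with
    | refl => exact Relation.ReflTransGen.refl
    | tail _ h2 ih =>
      refine Relation.ReflTransGen.tail ih ⟨?_, h2.2.2⟩
      rw [← hu]
      exact mul_pos h2.1 h2.2.1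

lemma ball_eq_domainBall {u : G ⧸ K → ℝ} (hu : ∀ x y, u x * u y = F x.out * F y.out) {x : G ⧸ K}
    (hx : 0 < u x) (n : ℕ) : domainBall K φ F x n = ball (ker K φ) u x n := by
  induction n with
  | zero => rfl
  | succ n ih =>
    rw [domainBall, ball, ih]
    congr 1
    ext y
    constructor
    · rintro ⟨z, hz, h⟩
      have hp := pos_of_mem hx (ball_sub x n hz)
      have h3 := h.1
      rw [← hu] at h3
      exact ⟨z, hz, hp, (pos_iff_pos_of_mul_pos h3).1 hp, h.2⟩
    · rintro ⟨z, hz, h⟩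
      refine ⟨z, hz, ?_, h.2.2⟩
      rw [← hu]
      exact mul_pos h.1 h.2.1

end

/-- The conclusions about the nodal domain `D` of `F` through `x₀`, for a form whose eigenvalue `L` is larger than `N`. -/
def Conclusions (Γ K : Subgroup G) (φ F : G → ℝ) (L N : ℝ) (x₀ : G ⧸ K) : Prop :=
  -- `D` consists of finitely many orbits of its stabiliser
  (∃ R : Finset (G ⧸ K), ∀ x ∈ nodalDomain K φ F x₀, ∃ r ∈ R,
    ∃ h ∈ stabiliser Γ (nodalDomain K φ F x₀), h • r = x) ∧
  -- exponential growth of `D` with an explicit rate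
  0 < N ∧ (∃ M : ℝ, ∀ g, |F g| ≤ M) ∧
  (∀ M : ℝ, (∀ y ∈ nodalDomain K φ F x₀, |F y.out| ≤ M) → ∀ n : ℕ,
    (domainBall K φ F x₀ n).Finite ∧
    (F x₀.out / M) ^ 2 * (L / N) ^ (2 * n) ≤ ((domainBall K φ F x₀ n).ncard : ℝ)) ∧
  -- an isoperimetric inequality in the stabiliser
  Isoperimetric (stabiliser Γ (nodalDomain K φ F x₀)) ∧
  -- the stabiliser is not amenable; in particular it is infinite, and `D` is infinite
  ¬ Amenable (stabiliser Γ (nodalDomain K φ F x₀)) ∧
  Infinite (stabiliser Γ (nodalDomain K φ F x₀)) ∧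
  (nodalDomain K φ F x₀).Infinite

lemma amenable_of_finite (H : Type*) [Group H] [Finite H] : Amenable H := by
  classical
  intro T ε hε
  have := Fintype.ofFinite H
  refine ⟨Finset.univ, Finset.univ_nonempty, fun t _ => ?_⟩
  rw [Finset.sdiff_eq_empty_iff_subset.2 (Finset.subset_univ _)]
  simp only [Finset.card_empty, Nat.cast_zero]
  positivity

open Classical in
/-- transfer to a subgroup -/
lemma transfer {H Γ : Type*} [Group H] [Group Γ] (ι : H →* Γ) (hι : Function.Injective ι)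
    {T : Finset Γ} {c : ℝ} (hc : 0 < c) (hT : ∀ t ∈ T, ∃ h, ι h = t)
    (h : ∀ E : Finset Γ, (∀ k ∈ E, ∃ h, ι h = k) →
      c * (E.card : ℝ) ≤ ∑ t ∈ T, (((E.image (fun k => k * t)) \ E).card : ℝ)) : Isoperimetric H := by
  refine ⟨T.preimage ι hι.injOn, c, hc, fun E => ?_⟩
  have h1 := h (E.image ι) (by
    intro k hk
    obtain ⟨e, _, rfl⟩ := Finset.mem_image.1 hk
    exact ⟨e, rfl⟩)
  rw [Finset.card_image_of_injective _ hι] at h1
  refine h1.trans (le_of_eq ?_)
  have e1 : T = (T.preimage ι hι.injOn).image ι := by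
    ext t
    rw [Finset.mem_image]
    constructor
    · intro ht
      obtain ⟨h, rfl⟩ := hT t ht
      exact ⟨h, Finset.mem_preimage.2 ht, rfl⟩
    · rintro ⟨h, hh, rfl⟩
      exact Finset.mem_preimage.1 hh
  conv_lhs => rw [e1]
  rw [Finset.sum_image (fun a _ b _ h => hι h)]
  refine Finset.sum_congr rfl fun t _ => ?_
  congr 1
  rw [← Finset.card_image_of_injective ((E.image (fun e => e * t)) \ E) hι]
  congr 1
  rw [Finset.image_sdiff _ _ hι, Finset.image_image, Finset.image_image]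
  congr 2
  funext k
  simp only [Function.comp_apply, map_mul]

/-- an isoperimetric inequality excludes amenability -/
lemma not_amenable (H : Type*) [Group H] (h : Isoperimetric H) : ¬ Amenable H := by
  classical
  obtain ⟨T, c, hc, h⟩ := h
  intro hA
  obtain ⟨E, hE, hE2⟩ := hA T (c / (2 * (T.card + 1))) (by positivity)
  have h1 := h E
  have hEc : (0 : ℝ) < E.card := by exact_mod_cast Finset.card_pos.2 hE
  have h2 : ∑ t ∈ T, (((E.image (fun e => e * t)) \ E).card : ℝ) ≤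
      T.card * (c / (2 * (T.card + 1)) * E.card) := by
    have := Finset.sum_le_card_nsmul T _ _ hE2
    rwa [nsmul_eq_mul] at this
  have h3 : (T.card : ℝ) * (c / (2 * (T.card + 1)) * E.card) ≤ c / 2 * E.card := by
    have hT : (0 : ℝ) ≤ T.card := Nat.cast_nonneg _
    have : (T.card : ℝ) * (c / (2 * (T.card + 1)) * E.card) =
        c / 2 * E.card * (T.card / (T.card + 1)) := by
      field_simp
    rw [this]
    have h4 : (T.card : ℝ) / (T.card + 1) ≤ 1 := by
      rw [div_le_one (by positivity)]; linarith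
    have : 0 ≤ c / 2 * E.card := by positivity
    nlinarith
  have h4 : 0 < c / 2 * E.card := by positivity
  nlinarith

section

variable {K Γ : Subgroup G} {φ F : G → ℝ} {L N : ℝ}

lemma conclusions_of {u : G ⧸ K → ℝ} (hφ : HeckeFunction K φ)
    (hΓ : ∀ g : G, {γ : G | γ ∈ Γ ∧ g⁻¹ * γ * g ∈ K}.Finite) (hF : FiniteForm Γ K F)
    (hE : Eig Γ (ker K φ) u L) (hN : SpectrumLe K φ N) (hLN : N < L)
    (hu : ∀ x y, u x * u y = F x.out * F y.out) (hua : ∀ x, |u x| = |F x.out|)
    {x₀ : G ⧸ K} (h0 : 0 < u x₀) : Conclusions Γ K φ F L N x₀ := by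
  classical
  have hK := isKer (Γ := Γ) hφ hΓ
  have hD := nod_eq_nodalDomain (φ := φ) hu h0
  have hN' : NormLe (ker K φ) N := hN
  obtain ⟨R, hR1, hR2⟩ := exists_reps hK hE h0
  have hN0 := norm_pos hK hE hN' hLN h0
  have hM : ∃ M : ℝ, ∀ g, |F g| ≤ M := by
    obtain ⟨S, hS⟩ := hF.support
    refine ⟨∑ s ∈ S, |F s|, fun g => ?_⟩
    by_cases hg : F g = 0
    · rw [hg, abs_zero]; exact Finset.sum_nonneg fun _ _ => abs_nonneg _
    · obtain ⟨γ, hγ, s, hs, k, hk, rfl⟩ := hS g hg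
      rw [hF.invariant γ hγ k hk]
      exact Finset.single_le_sum (f := fun s => |F s|) (fun _ _ => abs_nonneg _) hs
  have hiso : Isoperimetric (stabiliser Γ (nodalDomain K φ F x₀)) := by
    obtain ⟨T, c, hc, hT, hTE⟩ := iso hK hE hN' hLN h0
    rw [← hD] at hT hTE
    refine transfer (H := stabiliser Γ (nodalDomain K φ F x₀)) (Γ := Γ) (T := T)
      ⟨⟨fun h => ⟨h.1, h.2.1⟩, rfl⟩, fun _ _ => rfl⟩ ?_ hc ?_ ?_
    · intro a b h
      exact Subtype.ext (congrArg (fun g : Γ => g.1) h)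
    · intro t ht
      exact ⟨⟨t.1, t.2, fun z => hT t ht z⟩, rfl⟩
    · intro E hE'
      refine hTE E fun k hk => ?_
      obtain ⟨e, rfl⟩ := hE' k hk
      exact fun z => e.2.2 z
  have hnot : ¬ Amenable (stabiliser Γ (nodalDomain K φ F x₀)) := not_amenable _ hiso
  have hinf : Infinite (stabiliser Γ (nodalDomain K φ F x₀)) := by
    by_contra hfin
    rw [not_infinite_iff_finite] at hfin
    exact hnot (amenable_of_finite _)
  refine ⟨⟨R, ?_⟩, hN0, hM, ?_, hiso, hnot, hinf, ?_⟩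
  · intro x hx
    rw [hD] at hx
    obtain ⟨r, hr, h, hh, e⟩ := hR2 x hx
    refine ⟨r, hr, h.1, ⟨h.2, fun z => ?_⟩, e⟩
    rw [hD]
    exact hh z
  · intro M hM n
    rw [ball_eq_domainBall hu h0]
    refine ⟨ball_fin hK x₀ n, ?_⟩
    have hM' : ∀ y ∈ nod (ker K φ) u x₀, u y ≤ M := by
      intro y hy
      rw [← hD] at hy
      exact (le_abs_self _).trans ((hua y).le.trans (hM y hy))
    have hg := growth hK hE hN' hLN h0 hM' n
    have hM0 : 0 < M := h0.trans_le (hM' x₀ (self_mem x₀))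
    have e1 : F x₀.out ^ 2 = u x₀ ^ 2 := by
      rw [← sq_abs, ← hua, sq_abs]
    rw [div_pow, div_pow, e1, div_mul_div_comm, div_le_iff₀ (by positivity)]
    calc u x₀ ^ 2 * L ^ (2 * n) = L ^ (2 * n) * u x₀ ^ 2 := by ring
      _ ≤ _ := hg
      _ = _ := by ring
  · -- `D` is infinite
    intro hfin
    obtain ⟨M, hM⟩ := hM
    have hsub : ∀ n, ball (ker K φ) u x₀ n ⊆ nodalDomain K φ F x₀ := fun n => by
      rw [hD]; exact ball_sub x₀ n
    have hM0 : 0 < M := by
      have := hM x₀.out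
      rw [← hua] at this
      exact (abs_pos.2 h0.ne').trans_le this
    have hLN1 : 1 < L / N := (one_lt_div hN0).2 hLN
    have hu0 : 0 < (u x₀ / M) ^ 2 := by positivity
    obtain ⟨n, hn⟩ := pow_unbounded_of_one_lt (((nodalDomain K φ F x₀).ncard : ℝ) / (u x₀ / M) ^ 2) hLN1
    have hM' : ∀ y ∈ nod (ker K φ) u x₀, u y ≤ M := fun y _ =>
      (le_abs_self _).trans ((hua y).le.trans (hM _))
    have hg := growth hK hE hN' hLN h0 hM' n
    have h1 : ((ball (ker K φ) u x₀ n).ncard : ℝ) ≤ (nodalDomain K φ F x₀).ncard := by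
      exact_mod_cast Set.ncard_le_ncard (hsub n) hfin
    rw [div_lt_iff₀ hu0] at hn
    have h2 : (L / N) ^ n ≤ (L / N) ^ (2 * n) := pow_le_pow_right₀ hLN1.le (by omega)
    have h3 : (L / N) ^ (2 * n) * (u x₀ / M) ^ 2 ≤ ((ball (ker K φ) u x₀ n).ncard : ℝ) := by
      rw [div_pow, div_pow, div_mul_div_comm, div_le_iff₀ (by positivity)]
      calc L ^ (2 * n) * u x₀ ^ 2 ≤ _ := hg
        _ = _ := by ring
    have h4 : (L / N) ^ n * (u x₀ / M) ^ 2 ≤ (L / N) ^ (2 * n) * (u x₀ / M) ^ 2 :=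
      mul_le_mul_of_nonneg_right h2 hu0.le
    linarith

end

/-- **Nodal domains of forms which violate the Ramanujan bound have non-amenable stabilisers.** -/
theorem result {G : Type*} [Group G] (Γ K : Subgroup G) (φ F : G → ℝ) (L N : ℝ)
    (hφ : HeckeFunction K φ)
    (hΓ : ∀ g : G, {γ : G | γ ∈ Γ ∧ g⁻¹ * γ * g ∈ K}.Finite)
    (hF : FiniteForm Γ K F)
    (hL : ∀ g, hecke K φ F g = L * F g)
    (hN : SpectrumLe K φ N) :
    -- if the bound `L ≤ N` fails, then all nodal domains have the properties listed in `Conclusions`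
    (N < L → ∀ x₀ : G ⧸ K, F x₀.out ≠ 0 → Conclusions Γ K φ F L N x₀) ∧
    -- if the stabiliser of one nodal domain is amenable, then the bound `L ≤ N` holds
    ((∃ x₀ : G ⧸ K, F x₀.out ≠ 0 ∧ Amenable (stabiliser Γ (nodalDomain K φ F x₀))) → L ≤ N) ∧
    -- if the balls in one nodal domain do not grow exponentially, then the bound `L ≤ N` holds
    ((∃ x₀ : G ⧸ K, F x₀.out ≠ 0 ∧ ∀ r : ℝ, 1 < r → ∀ c : ℝ, 0 < c → ∃ n : ℕ,
      ((domainBall K φ F x₀ n).ncard : ℝ) < c * r ^ n) → L ≤ N) := by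
  have main : N < L → ∀ x₀ : G ⧸ K, F x₀.out ≠ 0 → Conclusions Γ K φ F L N x₀ := by
    intro hLN x₀ h0
    rcases lt_or_gt_of_ne h0 with h | h
    · exact conclusions_of (u := fun x => -F x.out) hφ hΓ hF (isEig_neg hF hL) hN hLN
        (fun x y => by ring) (fun x => abs_neg _) (by simpa using h)
    · exact conclusions_of (u := fun x => F x.out) hφ hΓ hF (isEig hF hL) hN hLN
        (fun x y => rfl) (fun x => rfl) h
  refine ⟨main, ?_, ?_⟩
  · rintro ⟨x₀, h0, hA⟩
    by_contra hlt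
    push Not at hlt
    exact (main hlt x₀ h0).2.2.2.2.2.1 hA
  · rintro ⟨x₀, h0, hg⟩
    by_contra hlt
    push Not at hlt
    obtain ⟨_, hN0, ⟨M, hM⟩, h3, _⟩ := main hlt x₀ h0
    have hM0 : 0 < M := (abs_pos.2 h0).trans_le (hM _)
    have hLN1 : 1 < L / N := (one_lt_div hN0).2 hlt
    have hc : 0 < (F x₀.out / M) ^ 2 := by positivity
    obtain ⟨n, hn⟩ := hg ((L / N) ^ 2) (one_lt_pow₀ hLN1 two_ne_zero) _ hc
    have h4 := (h3 M (fun y _ => hM _) n).2
    rw [pow_mul] at h4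
    linarith

end Pool.Agent.Results.MP_eadad4_nt.AmenableNodalStabilisers
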