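import Pool.Agent.Q284.T3.Ass

/-!
# The exterior powers `Λ^k`, `k ≤ K`, do not bound the Ramanujan exponents below `1/(2K)`

`k = F(T)`, `F` ANY finite field, `q = |F|`.  Let `K ≥ 1`, `δ > 0`, `g > 4K`, `g > 2/δ`.  For EVERY function `θ` from
the finite places of `k` to `[0, 1/(2K) - δ]` there are unramified `Π_P` of `PGL_2g` at all finite places `P`, with the
Satake parameters `|P|^θ(P) β_j`, `|P|^(-θ(P)) β_j`, `|β_j| = 1`, closed under conjugation (unitary, generic: products of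
complementary series; self-dual, the classes lie in `Sp_2g(ℂ)`, so they also belong to `SO_{2g+1}`), such that

* for `1 ≤ k ≤ K` and EVERY idele class character `χ` of `F(T)` (up to unramified twists `|·|^s`: the primitive Hayes
  characters of any level), with whatever ramification, `L(s, Λ^k Π ⊗ χ)` is a polynomial in `q^(-s)` of the prescribed
  degree with functional equation with the prescribed root number, and ALL its zeros are on the line `Re s = 1/2`;
* for every `r ≥ 2` and `k_1, ..., k_r ≥ 1` with sum at most `K` and every `χ`, the Euler product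
  `L(s, Λ^(k_1) Π × ... × Λ^(k_r) Π ⊗ χ)` converges absolutely for `Re s ≥ 1/2` (if `ν > 18`; in general for
  `Re s > 1 - (9/5)(1/2 - 4/ν)`).

The characters `e_(k_1) ... e_(k_r)` with sum at most `K` span the characters of all polynomial representations of
degree at most `K` (Jacobi and Trudi; not used here), so ALL the `L`-functions of `Π` for representations of degree
at most `K` are holomorphic and have no zeros for `Re s > 1/2`.

The bound `1/(2K)` is what the Rankin-Selberg method (Jacquet and Shalika) gives if `Λ^K Π` is automorphic.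

The classes: `e_n(|P|^θ β) = w_n`, where `∑_(a+b=n) w_a |P|^(-2θb) w_b = x_n` with small prescribed `x_n`,
`n ≤ K`, and `w_n = 0` for `K < n < g/2`; then the traces of the `l`-th powers in `Λ^k` are `O(max |x_n|)` for
`2lK < g`.

Engine: project GE (see `Pool/Agent/Q284/GE/All.lean` for the authors of the lemmas); this file: helper284.
-/

set_option autoImplicit false

open Finset Polynomial ComplexConjugate

namespace Pool.Agent.Results.MP_eadad4_nt.ExteriorPowersMethod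

open Pool.Agent.Q284.PS (Prim Place Nice)
open Pool.Agent.Q284.GE (RiemannHypothesis)
open Pool.Agent.Q284.T3 (Classes extFactor prodFactor)

theorem result : ∀ (K g : ℕ) (δ : ℝ), 1 ≤ K → 4 * K < g → 2 < δ * g → ∃ M₀ : ℕ, 3 ≤ M₀ ∧
    ∀ (F : Type) [Field F] [Fintype F] (θ : F[X] → ℝ), (∀ P, 0 ≤ θ P ∧ θ P ≤ 1 / (2 * K) - δ) →
    ∀ ν M : ℕ, 9 ≤ ν → M₀ ≤ M → ∀ (D : ℕ → F[X] → ℕ → (F[X] → ℂ) → ℕ) (ε : ℕ → (F[X] → ℂ) → ℂ),
    -- degrees and root numbers
    (∀ k : ℕ, 1 ≤ k → k ≤ K → ∀ (Q : F[X]) (l : ℕ) (χ : F[X] → ℂ), Prim Q l χ →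
      ν * (Q.natDegree + max M (l + 1) - 2) ≤ D k Q l χ ∧ D k Q l (fun f => conj (χ f)) = D k Q l χ) →
    (∀ k : ℕ, 1 ≤ k → k ≤ K → ∀ χ, ‖ε k χ‖ = 1 ∧ ε k (fun f => conj (χ f)) = conj (ε k χ)) →
    ∃ β : F[X] → Fin g → ℂ, Classes β ∧
      -- the exterior powers
      (∀ (k : ℕ), 1 ≤ k → k ≤ K → ∀ (Q : F[X]) (l : ℕ) (χ : F[X] → ℂ), Prim Q l χ → ∃ L : ℂ → ℂ,
        Nice (Fintype.card F) (D k Q l χ) (ε k χ) L ∧ RiemannHypothesis L ∧
        ∀ s : ℂ, 1 - 9 / 10 * (1 / 2 - 4 / (ν : ℝ)) < s.re → 1 - K * δ < s.re →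
          HasProd (extFactor θ β k χ s) (L s)) ∧
      -- their products
      ∀ (r : ℕ) (k : Fin r → ℕ), 2 ≤ r → (∀ i, 1 ≤ k i) → ∑ i, k i ≤ K →
        ∀ (Q : F[X]) (l : ℕ) (χ : F[X] → ℂ), Prim Q l χ → ∀ s : ℂ, 1 / 2 ≤ s.re →
          1 - 9 / 5 * (1 / 2 - 4 / (ν : ℝ)) < s.re → Summable (fun P : Place F => ‖prodFactor θ β k χ s P - 1‖) := by
  intro K g δ hK hg hδ
  obtain ⟨M₀, hM₀, h⟩ := Pool.Agent.Q284.T3.extStm K g δ hK hg hδ
  refine ⟨M₀, hM₀, ?_⟩
  intro F _ _ θ hθ ν M hν hM D ε hD hε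
  obtain ⟨β, h1, h2, h3⟩ := h F θ hθ ν M hν hM (fun k => Pool.Agent.Q284.GE.lev (D k)) ε (by
    intro k hk1 hk2 Q l χ hχ
    beta_reduce
    rw [Pool.Agent.Q284.GE.lev_eq _ hχ, Pool.Agent.Q284.GE.lev_eq _ (Pool.Agent.Q284.GE.prim_conj hχ)]
    exact hD k hk1 hk2 Q l χ hχ) hε
  refine ⟨β, h1, ?_, h3⟩
  intro k hk1 hk2 Q l χ hχ
  obtain ⟨L, h6, h7, h8⟩ := h2 k hk1 hk2 Q l χ hχ
  beta_reduce at h6
  rw [Pool.Agent.Q284.GE.lev_eq _ hχ] at h6
  exact ⟨L, h6, h7, h8⟩

end Pool.Agent.Results.MP_eadad4_nt.ExteriorPowersMethod
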